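import Pool.Agent.W744.GL.Stm

open Metric Set Filter Topology Complex

namespace Pool.Agent.W138.GL.G0
open Pool.Agent.Helper503.Gp (HI IsChar Gl bfac cay PH BlaOn BF mu)
open Pool.Agent.W744.GL

theorem one_sub_ne {z : ℂ} (hz : z ∈ ball (0 : ℂ) 1) : (1 : ℂ) - z ≠ 0 := by
  intro h
  have h1 : z = 1 := by
    have h2 : (1 : ℂ) = z := sub_eq_zero.mp h
    exact h2.symm
  rw [h1, mem_ball, dist_zero_right, norm_one] at hz
  exact lt_irrefl _ hz

theorem re_nonneg {z : ℂ} (hz : z ∈ ball (0 : ℂ) 1) : 0 ≤ ((1 + z) / (1 - z)).re := by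
  rw [mem_ball, dist_zero_right] at hz
  have h1 : ‖z‖ ^ 2 < 1 := by
    have h0 : 0 ≤ ‖z‖ := norm_nonneg z
    nlinarith
  have h2 : ‖z‖ ^ 2 = z.re ^ 2 + z.im ^ 2 := by
    rw [← Complex.normSq_eq_norm_sq, Complex.normSq_apply]
    ring
  rw [Complex.div_re]
  simp only [Complex.add_re, Complex.one_re, Complex.sub_re, Complex.add_im, Complex.one_im,
    Complex.sub_im, zero_add, zero_sub]
  rw [← add_div]
  apply div_nonneg
  · nlinarith
  · exact Complex.normSq_nonneg _

theorem main : S_G0 := by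
  have hle : ∀ z ∈ ball (0 : ℂ) 1, ‖g0 z‖ ≤ 1 := by
    intro z hz
    unfold g0
    rw [Complex.norm_exp, Real.exp_le_one_iff]
    have h1 : (-(2 * (Real.pi : ℂ)) * ((1 + z) / (1 - z))).re =
        -(2 * Real.pi) * ((1 + z) / (1 - z)).re := by
      have h2 : (-(2 * (Real.pi : ℂ))) = ((-(2 * Real.pi) : ℝ) : ℂ) := by
        push_cast
        ring
      rw [h2, Complex.re_ofReal_mul]
    rw [h1]
    have h3 := re_nonneg hz
    have h4 := Real.pi_pos
    nlinarith
  refine ⟨?_, hle, ?_, ?_⟩
  · refine ⟨?_, ⟨1, hle⟩⟩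
    unfold g0
    apply DifferentiableOn.cexp
    apply DifferentiableOn.const_mul
    apply DifferentiableOn.div
    · exact (differentiableOn_const _).add differentiableOn_id
    · exact (differentiableOn_const _).sub differentiableOn_id
    · intro z hz
      exact one_sub_ne hz
  · intro z _
    unfold g0
    exact Complex.exp_ne_zero _
  · intro w hw
    unfold g0 cay
    congr 1
    have hwI : w + I ≠ 0 := by
      intro h
      have h2 : (w + I).im = 0 := by rw [h]; rfl
      rw [Complex.add_im, Complex.I_im] at h2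
      linarith
    have h1 : (1 : ℂ) + (w - I) / (w + I) = 2 * w / (w + I) := by
      field_simp
      ring
    have h2 : (1 : ℂ) - (w - I) / (w + I) = 2 * I / (w + I) := by
      field_simp
      ring
    rw [h1, h2, div_div_div_cancel_right₀ hwI, mul_div_mul_left _ _ two_ne_zero, Complex.div_I]
    ring

end Pool.Agent.W138.GL.G0
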